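import Pool.Agent.MP_249f74_an.H42.Sys
import Pool.Agent.MP_249f74_an.H17.Cm

/-!
The system of reflections in real algebraic hypersurfaces. An edge is a pair `(x, u)` that stands
for the parametrized line `t ↦ x + t u`.
-/

open Matrix

namespace Pool.Agent.MP_249f74_an.H32

open H17.Cm (grad rf line Conf Warp)
open H42 (ev Gen Cur FL mp)
open H96A (sg)

/-- Irreducible hypersurfaces of degree at least two with a real point that is generic over the
real field `k`. -/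
structure Mir (k C ι : Type) [Field k] [Algebra k ℝ] [Field C] [Algebra k C] [Fintype ι] where
  /-- the equation -/
  f : MvPolynomial ι C
  prime : Prime f
  deg : 2 ≤ f.totalDegree
  nrm : f = Quot.out (Associates.mk f)
  real : ∃ (G : MvPolynomial ι k) (a : C) (y : ι → ℝ),
    f = a • MvPolynomial.map (algebraMap k C) G ∧
      ∀ P : MvPolynomial ι k, MvPolynomial.aeval y P = 0 ↔ G ∣ P
  nn : ¬f ∣ ∑ i, MvPolynomial.pderiv i f * MvPolynomial.pderiv i f

variable {k C Ω ι : Type} [Field k] [Algebra k ℝ] [Field C] [Algebra k C] [Field Ω] [Algebra C Ω]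

/-- The base point of an edge. -/
def pos (l : ι ⊕ ι → Ω) : ι → Ω := fun i => l (.inl i)

/-- The direction of an edge. -/
def dir (l : ι ⊕ ι → Ω) : ι → Ω := fun i => l (.inr i)

/-- The point with the parameter `t`. -/
def pt (l : ι ⊕ ι → Ω) (t : Ω) : ι → Ω := pos l + t • dir l

/-- The edge with the direction `u` on which `q` has the parameter `t`. -/
def edge (q u : ι → Ω) (t : Ω) : ι ⊕ ι → Ω := Sum.elim (q - t • u) u

@[simp] lemma dir_edge (q u : ι → Ω) (t : Ω) : dir (edge q u t) = u := rfl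

@[simp] lemma pos_edge (q u : ι → Ω) (t : Ω) : pos (edge q u t) = q - t • u := rfl

@[simp] lemma pt_edge (q u : ι → Ω) (t : Ω) : pt (edge q u t) t = q := by simp [pt]

lemma edge_pt (l : ι ⊕ ι → Ω) (t : Ω) : edge (pt l t) (dir l) t = l := by
  ext (i | i) <;> simp [edge, pt, pos, dir]

lemma eq_of_pt {l l' : ι ⊕ ι → Ω} {t : Ω} (h : pt l t = pt l' t) (h' : dir l = dir l') : l = l' := by
  rw [← edge_pt l t, h, h', edge_pt]

lemma dir_mp (σ : Ω ≃ₐ[C] Ω) (l : ι ⊕ ι → Ω) : dir (mp σ l) = σ ∘ dir l := rfl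

lemma pos_mp (σ : Ω ≃ₐ[C] Ω) (l : ι ⊕ ι → Ω) : pos (mp σ l) = σ ∘ pos l := rfl

lemma pt_mp (σ : Ω ≃ₐ[C] Ω) (l : ι ⊕ ι → Ω) (t : Ω) : pt (mp σ l) (σ t) = σ ∘ pt l t := by
  ext i; simp [pt, pos, dir, mp]

variable [Fintype ι]

/-- The section of a hypersurface by an edge. -/
noncomputable def sec (F : MvPolynomial ι C) (l : ι ⊕ ι → Ω) : Polynomial Ω :=
  line F (pos l) (dir l)

open Classical in
/-- The parameters of the points of the mirror on an edge. -/
noncomputable def Pts (m : Mir k C ι) (l : ι ⊕ ι → Ω) : Finset Ω := (sec m.f l).roots.toFinset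

/-- Generic points of a mirror. -/
def Mir.On (m : Mir k C ι) (q : ι → Ω) : Prop :=
  ∀ P : MvPolynomial ι C, MvPolynomial.aeval q P = 0 ↔ m.f ∣ P

/-- Reflection at a simple point with a non isotropic normal. -/
structure St (m : Mir k C ι) (l : ι ⊕ ι → Ω) (t : Ω) (l' : ι ⊕ ι → Ω) : Prop where
  zero : MvPolynomial.aeval (pt l t) m.f = 0
  nn : grad m.f (pt l t) ⬝ᵥ grad m.f (pt l t) ≠ 0
  nu : grad m.f (pt l t) ⬝ᵥ dir l ≠ 0
  pt_eq : pt l' t = pt l t
  dir_eq : dir l' = rf (grad m.f (pt l t)) (dir l)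

variable (Ω) in
/-- The square class of the discriminant of the section. -/
def Dsc (m : Mir k C ι) (D : MvPolynomial (ι ⊕ ι) C) : Prop :=
  Squarefree D ∧ ∀ l : ι ⊕ ι → Ω, Gen C l → ∀ σ ∈ FL C l, ∀ r, r ^ 2 = ev l D →
    σ r = ((sg σ (Pts m l) : ℤ) : Ω) * r

variable (Ω) in
/-- A representative of the square class of the discriminant. -/
noncomputable def Δ (m : Mir k C ι) : MvPolynomial (ι ⊕ ι) C := Classical.epsilon (Dsc Ω m)

/-- Generic tangent edges. -/
def Tl (m : Mir k C ι) (l : ι ⊕ ι → Ω) : Prop :=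
  Cur C l ∧ ∃ t, m.On (pt l t) ∧ grad m.f (pt l t) ⬝ᵥ dir l = 0

/-- Quadrics. -/
def Qd (m : Mir k C ι) : Prop := m.f.totalDegree = 2

/-- Commuting mirrors. -/
def Cm [DecidableEq ι] (m m' : Mir k C ι) : Prop := m ≠ m' ∧ (Conf m.f m'.f ∨ Warp m.f m'.f ∨ Warp m'.f m.f)

/-- Edges with the same direction on the same line. -/
def Same (l l' : ι ⊕ ι → Ω) : Prop := dir l' = dir l ∧ ∃ b : Ω, pos l' = pt l b

variable (k C Ω ι) in
/-- The system of real mirrors. -/
noncomputable def sys [DecidableEq ι] : H42.Sys C Ω (ι ⊕ ι) where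
  M := Mir k C ι
  Pts := Pts
  St := St
  Δ := Δ Ω
  Tl := Tl
  Qd := Qd
  Cm := Cm
  Same := Same

section Basic

variable {m m' : Mir k C ι} {l l' l'' : ι ⊕ ι → Ω} {q u : ι → Ω} {t : Ω}

lemma Mir.mir (m : Mir k C ι) : H17.Cm.Mir m.f := ⟨m.prime, m.nn⟩

lemma Mir.ext_of_associated (h : Associated m.f m'.f) : m = m' := by
  obtain ⟨f, _, _, h1, _, _⟩ := m
  obtain ⟨f', _, _, h2, _, _⟩ := m'
  obtain rfl : f = f' := by rw [h1, h2, Associates.mk_eq_mk_iff_associated.2 h]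
  rfl

lemma eval_sec (F : MvPolynomial ι C) (l : ι ⊕ ι → Ω) (t : Ω) :
    (sec F l).eval t = MvPolynomial.aeval (pt l t) F := by
  classical exact H17.Cm.eval_line ..

lemma eval_derivative_sec (F : MvPolynomial ι C) (l : ι ⊕ ι → Ω) (t : Ω) :
    (sec F l).derivative.eval t = grad F (pt l t) ⬝ᵥ dir l := by
  classical exact H17.Cm.eval_derivative_line ..

lemma mem_pts : t ∈ Pts m l ↔ sec m.f l ≠ 0 ∧ MvPolynomial.aeval (pt l t) m.f = 0 := by
  simp [Pts, eval_sec]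

lemma St.sec_ne (h : St m l t l') : sec m.f l ≠ 0 := fun e =>
  h.nu (by rw [← eval_derivative_sec, e]; simp)

lemma St.mem (h : St m l t l') : t ∈ Pts m l := mem_pts.2 ⟨h.sec_ne, h.zero⟩

lemma St.symm (h : St m l t l') : St m l' t l := by
  classical
  refine ⟨h.pt_eq ▸ h.zero, h.pt_eq ▸ h.nn, ?_, h.pt_eq.symm, ?_⟩ <;> rw [h.pt_eq, h.dir_eq]
  · rw [H17.Cm.dot_rf h.nn]; exact neg_ne_zero.2 h.nu
  · rw [H17.Cm.rf_rf h.nn]

lemma St.det (h : St m l t l') (h' : St m l t l'') : l' = l'' :=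
  eq_of_pt (h.pt_eq.trans h'.pt_eq.symm) (h.dir_eq.trans h'.dir_eq.symm)

lemma St.eq_edge (h : St m l t l') : l' = edge (pt l t) (rf (grad m.f (pt l t)) (dir l)) t := by
  rw [← h.dir_eq, ← h.pt_eq, edge_pt]

/-- The reflected edge exists. -/
lemma st_edge (h0 : MvPolynomial.aeval (pt l t) m.f = 0)
    (hn : grad m.f (pt l t) ⬝ᵥ grad m.f (pt l t) ≠ 0) (hu : grad m.f (pt l t) ⬝ᵥ dir l ≠ 0) :
    St m l t (edge (pt l t) (rf (grad m.f (pt l t)) (dir l)) t) :=
  ⟨h0, hn, hu, pt_edge .., rfl⟩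

end Basic

end Pool.Agent.MP_249f74_an.H32
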