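import Pool.Agent.MP_249f74_an.H42.Sys

/-!
Generic families and generic points of hypersurfaces in terms of the transcendence rank.
-/

open Set Matrix

namespace Pool.Agent.MP_249f74_an.H32

open H42 (ev Gen Cur)
open H88 (rk cl subset_cl)

variable {C Ω κ : Type} [Field C] [Field Ω] [Algebra C Ω]

lemma gen_iff {l : κ → Ω} : Gen C l ↔ AlgebraicIndependent C l := algebraicIndependent_iff.symm

lemma rk_mono {S T : Set Ω} (h : T ⊆ S) : rk C T ≤ rk C S := H88.rk_le (h.trans (subset_cl S))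

lemma aeval_mem_cl {S : Set Ω} {y : κ → Ω} (h : ∀ i, y i ∈ cl C S) (P : MvPolynomial κ C) :
    MvPolynomial.aeval y P ∈ cl C S := by
  induction P using MvPolynomial.induction_on with
  | C a => simp
  | add p q hp hq => simpa using add_mem hp hq
  | mul_X p i hp => simpa using mul_mem hp (h i)

lemma exists_prime {l : κ → Ω} {F : MvPolynomial κ C} (hF : F ≠ 0) (h : ev l F = 0) :
    ∃ π, Prime π ∧ π ∣ F ∧ ev l π = 0 := by
  induction F using UniqueFactorizationMonoid.induction_on_prime with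
  | h₁ => exact absurd rfl hF
  | h₂ u hu => exact absurd h (hu.map _).ne_zero
  | h₃ a p ha hp ih =>
    rcases mul_eq_zero.1 ((map_mul _ _ _).symm.trans h) with h | h
    · exact ⟨p, hp, dvd_mul_right _ _, h⟩
    · obtain ⟨π, h1, h2, h3⟩ := ih ha h
      exact ⟨π, h1, h2.mul_left _, h3⟩

variable [Fintype κ] {l : κ → Ω}

lemma rk_ne_top (l : κ → Ω) : rk C (range l) ≠ ⊤ :=
  ne_top_of_le_ne_top (ENat.natCast_ne_top _) (H88.rk_le_card l)

lemma gen_iff_rk : Gen C l ↔ (Fintype.card κ : ℕ∞) ≤ rk C (range l) := by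
  rw [gen_iff, H88.le_rk_iff]
  refine ⟨fun h => ⟨Finset.univ, rfl, h.comp _ Subtype.val_injective⟩, fun ⟨J, h1, h2⟩ => ?_⟩
  obtain rfl := Finset.eq_univ_of_card _ h1
  exact h2.comp (fun i => ⟨i, Finset.mem_univ _⟩) fun a b e => congrArg Subtype.val e

/-- A root of a non zero polynomial has small rank. -/
lemma rk_lt {F : MvPolynomial κ C} (hF : F ≠ 0) (h : ev l F = 0) :
    rk C (range l) + 1 ≤ Fintype.card κ :=
  Order.add_one_le_of_lt (not_le.1 fun h' => hF (gen_iff_rk.2 h' F h))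

/-- The ideal of a root of large rank of a prime polynomial. -/
lemma ker_of_rk {π : MvPolynomial κ C} (hπ : Prime π) (h : ev l π = 0)
    (hr : (Fintype.card κ : ℕ∞) ≤ rk C (range l) + 1) (F : MvPolynomial κ C) :
    ev l F = 0 ↔ π ∣ F := by
  classical
  refine ⟨fun hF => ?_, by rintro ⟨G, rfl⟩; rw [map_mul, h, zero_mul]⟩
  obtain ⟨e, he⟩ : ∃ e, Fintype.card κ = e + 1 := Nat.exists_eq_succ_of_ne_zero fun e => by
    simpa [e] using rk_lt hπ.ne_zero h
  refine H88.dvd_of_gen (H88.gen_of_rk he ?_) hπ.irreducible h hF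
  rw [he, Nat.cast_add, Nat.cast_one] at hr
  exact (ENat.add_le_add_iff_right ENat.one_ne_top).1 hr

lemma cur_iff_rk : Cur C l ↔ rk C (range l) + 1 = Fintype.card κ := by
  classical
  constructor
  · rintro ⟨π, hπ, h⟩
    refine le_antisymm (rk_lt hπ.ne_zero ((h π).2 dvd_rfl)) ?_
    obtain ⟨j, hj⟩ : ∃ j, π.degreeOf j ≠ 0 := by
      by_contra! hn
      have h1 : π.vars = ∅ := Finset.eq_empty_of_forall_notMem fun j hj =>
        (MvPolynomial.mem_vars_iff_degreeOf_ne_zero.1 hj) (hn j)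
      obtain h2 := MvPolynomial.vars_eq_empty_iff_eq_C.1 h1
      refine hπ.not_isUnit (h2 ▸ IsUnit.map _ (Ne.isUnit fun e => hπ.ne_zero ?_))
      rw [h2, e, map_zero]
    have h2 : AlgebraicIndependent C fun i : (Finset.univ.erase j : Finset κ) => l i := by
      refine algebraicIndependent_iff.2 fun P hP => by_contra fun P0 => ?_
      obtain ⟨Q, hQ⟩ := (h (MvPolynomial.rename Subtype.val P)).1 (by
        rw [ev, MvPolynomial.aeval_rename]; exact hP)
      have h3 : MvPolynomial.rename Subtype.val P ≠ 0 := fun e =>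
        P0 (MvPolynomial.rename_injective _ Subtype.val_injective (e.trans (map_zero _).symm))
      have h4 : (MvPolynomial.rename Subtype.val P).degreeOf j = 0 := by
        by_contra h5
        obtain ⟨i, -, hi⟩ := Finset.mem_image.1 (MvPolynomial.vars_rename _ _
          (MvPolynomial.mem_vars_iff_degreeOf_ne_zero.2 h5))
        exact (Finset.mem_erase.1 i.2).1 hi
      rw [hQ, MvPolynomial.degreeOf_mul_eq hπ.ne_zero (right_ne_zero_of_mul (hQ ▸ h3))] at h4
      omega
    have h3 := (H88.le_rk_iff l _).2 ⟨_, rfl, h2⟩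
    rw [← Finset.card_univ, ← Finset.card_erase_add_one (Finset.mem_univ j)]
    push_cast
    gcongr
  · intro h
    have h1 : ¬Gen C l := fun h' => by
      have := gen_iff_rk.1 h'
      rw [← h] at this
      exact absurd this (not_le.2 ((ENat.lt_add_one_iff (rk_ne_top l)).2 le_rfl))
    simp only [Gen, not_forall] at h1
    obtain ⟨F, h2, h3⟩ := h1
    obtain ⟨π, p1, -, p2⟩ := exists_prime h3 h2
    exact ⟨π, p1, ker_of_rk p1 p2 h.ge⟩

lemma rk_congr {S T : Set Ω} (h : S ⊆ cl C T) (h' : T ⊆ cl C S) : rk C S = rk C T :=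
  le_antisymm (H88.rk_le h) (H88.rk_le h')

/-- A linear relation lowers the rank. -/
lemma rk_lin {S : Set Ω} {N u : κ → Ω} {c : Ω} (hN : ∀ i, N i ∈ cl C S) (hc : c ∈ cl C S)
    (h0 : N ≠ 0) (h : N ⬝ᵥ u = c) : rk C (S ∪ range u) + 1 ≤ rk C S + Fintype.card κ := by
  classical
  obtain ⟨j, hj⟩ := Function.ne_iff.1 h0
  let v : ↥(Finset.univ.erase j) → Ω := fun i => u i
  have h1 : ∀ a ∈ cl C S, a ∈ cl C (S ∪ range v) := fun a ha =>
    H17.cl_le (subset_union_left.trans (subset_cl _)) ha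
  have h2 : ∀ i, i ≠ j → u i ∈ cl C (S ∪ range v) := fun i hi =>
    subset_cl _ (Or.inr ⟨⟨i, by simpa using hi⟩, rfl⟩)
  have h3 : S ∪ range u ⊆ cl C (S ∪ range v) := by
    rintro _ (ha | ⟨i, rfl⟩)
    · exact subset_cl _ (Or.inl ha)
    by_cases hi : i = j
    · have e : u j = (c - ∑ i ∈ Finset.univ.erase j, N i * u i) / N j := by
        rw [eq_div_iff hj, ← h, dotProduct, ← Finset.add_sum_erase _ _ (Finset.mem_univ j)]
        ring
      rw [hi, e]
      exact div_mem (sub_mem (h1 _ hc) (sum_mem fun i hi =>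
        mul_mem (h1 _ (hN i)) (h2 i (Finset.mem_erase.1 hi).1))) (h1 _ (hN j))
    · exact h2 i hi
  have h4 := (H88.rk_le h3).trans ((H88.rk_union _ _).trans (add_le_add_right (H88.rk_le_card v) _))
  rw [← Finset.card_univ (α := κ), ← Finset.card_erase_add_one (Finset.mem_univ j)]
  rw [Fintype.card_coe] at h4
  push_cast
  rw [← add_assoc]
  gcongr

end Pool.Agent.MP_249f74_an.H32
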