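import Pool.Agent.MP_249f74_an.H32.Mod
import Pool.Agent.MP_249f74_an.H32.Rk
import Pool.Agent.MP_249f74_an.H17.CmPass

/-!
Elementary properties of reflections in real algebraic hypersurfaces.
-/

open Set Matrix

namespace Pool.Agent.MP_249f74_an.H32

open H17.Cm (grad rf line Conf Warp)
open H42 (ev Gen Cur FL mp)
open H88 (rk cl subset_cl)

variable {k C Ω ι : Type} [Field k] [Algebra k ℝ] [Field C] [Algebra k C] [Field Ω] [Algebra C Ω]

omit [Field Ω] in
lemma range_edge (l : ι ⊕ ι → Ω) : range l = range (pos l) ∪ range (dir l) := by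
  ext a; simp [pos, dir]

lemma aeval_map (σ : Ω ≃ₐ[C] Ω) {κ : Type} (q : κ → Ω) (F : MvPolynomial κ C) :
    MvPolynomial.aeval (σ ∘ q) F = σ (MvPolynomial.aeval q F) :=
  (MvPolynomial.comp_aeval_apply (f := q) (σ : Ω →ₐ[C] Ω) F).symm

lemma ev_mp (σ : Ω ≃ₐ[C] Ω) {κ : Type} (l : κ → Ω) (F : MvPolynomial κ C) :
    ev (mp σ l) F = σ (ev l F) := aeval_map σ l F

lemma mp_eq {σ : Ω ≃ₐ[C] Ω} {κ : Type} {l : κ → Ω} (h : σ ∈ FL C l) : mp σ l = l :=
  funext fun i => h _ ⟨i, rfl⟩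

lemma grad_map (σ : Ω ≃ₐ[C] Ω) (F : MvPolynomial ι C) (q : ι → Ω) :
    grad F (σ ∘ q) = σ ∘ grad F q := funext fun _ => aeval_map σ q _

lemma pt_mem_cl {S : Set Ω} {l : ι ⊕ ι → Ω} {t : Ω} (h : ∀ i, l i ∈ cl C S) (ht : t ∈ cl C S)
    (i : ι) : pt l t i ∈ cl C S := add_mem (h _) (mul_mem ht (h _))

lemma edge_mem_cl {S : Set Ω} {q u : ι → Ω} {t : Ω} (hq : ∀ i, q i ∈ cl C S)
    (hu : ∀ i, u i ∈ cl C S) (ht : t ∈ cl C S) : ∀ i, edge q u t i ∈ cl C S := by
  rintro (i | i)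
  · exact sub_mem (hq i) (mul_mem ht (hu i))
  · exact hu i

lemma gen_dir {l : ι ⊕ ι → Ω} (h : Gen C l) : Gen C (dir l) :=
  gen_iff.2 ((gen_iff.1 h).comp _ Sum.inr_injective)

/-- An edge is given by a point, its direction and the parameter of the point. -/
lemma rk_edge_le (l : ι ⊕ ι → Ω) (t : Ω) :
    rk C (range l) ≤ rk C (range (pt l t) ∪ range (dir l)) + 1 := by
  refine (H88.rk_le ?_).trans (H88.rk_insert_le _ t)
  rintro _ ⟨i, rfl⟩
  rw [← edge_pt l t]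
  exact edge_mem_cl (fun i => subset_cl _ (by simp)) (fun i => subset_cl _ (by simp))
    (subset_cl _ (by simp)) i

variable [Fintype ι] {m m' : Mir k C ι} {l l' : ι ⊕ ι → Ω} {q u : ι → Ω} {t : Ω}

lemma dot_map (σ : Ω ≃ₐ[C] Ω) (a b : ι → Ω) : (σ ∘ a) ⬝ᵥ (σ ∘ b) = σ (a ⬝ᵥ b) := by
  simp [dotProduct]

lemma rf_map (σ : Ω ≃ₐ[C] Ω) (N u : ι → Ω) : rf (σ ∘ N) (σ ∘ u) = σ ∘ rf N u := by
  ext i; simp [rf, dot_map, map_ofNat]

omit [Fintype ι] in
lemma sec_mp (σ : Ω ≃ₐ[C] Ω) (F : MvPolynomial ι C) (l : ι ⊕ ι → Ω) :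
    sec F (mp σ l) = (sec F l).map σ := by
  have := MvPolynomial.comp_aeval_apply
    (f := fun i => Polynomial.C (pos l i) + Polynomial.C (dir l i) * Polynomial.X)
    (Polynomial.mapAlgHom (σ : Ω →ₐ[C] Ω)) F
  refine Eq.trans ?_ this.symm
  simp [sec, line, pos, dir, mp]

lemma St.map (h : St m l t l') (σ : Ω ≃ₐ[C] Ω) : St m (mp σ l) (σ t) (mp σ l') := by
  refine ⟨?_, ?_, ?_, ?_, ?_⟩ <;> simp only [pt_mp, dir_mp, grad_map, dot_map, rf_map, aeval_map]
  exacts [by rw [h.zero, map_zero], (map_ne_zero σ).2 h.nn, (map_ne_zero σ).2 h.nu,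
    by rw [h.pt_eq], by rw [h.dir_eq]]

lemma pts_map (σ : Ω ≃ₐ[C] Ω) (h : t ∈ Pts m l) : σ t ∈ Pts m (mp σ l) := by
  rw [mem_pts, sec_mp, pt_mp, aeval_map, (mem_pts.1 h).2]
  exact ⟨(Polynomial.map_ne_zero_iff σ.injective).2 (mem_pts.1 h).1, map_zero _⟩

lemma pts_stb {σ : Ω ≃ₐ[C] Ω} (hσ : σ ∈ FL C l) (h : t ∈ Pts m l) : σ t ∈ Pts m l :=
  mp_eq hσ ▸ pts_map σ h

lemma Mir.On.map (h : m.On q) (σ : Ω ≃ₐ[C] Ω) : m.On (σ ∘ q) := fun P => by
  rw [aeval_map, map_eq_zero, h]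

omit [Fintype ι] in
lemma coeff_sec_mem {S : Set Ω} (h : ∀ i, l i ∈ cl C S) (F : MvPolynomial ι C) (n : ℕ) :
    (sec F l).coeff n ∈ cl C S := by
  unfold sec line
  induction F using MvPolynomial.induction_on generalizing n with
  | C a =>
    rw [MvPolynomial.aeval_C, Polynomial.algebraMap_apply, Polynomial.coeff_C]
    split_ifs <;> simp
  | add p q hp hq => simpa using add_mem (hp n) (hq n)
  | mul_X p i hp =>
    rw [map_mul, MvPolynomial.aeval_X, mul_add, ← mul_assoc, Polynomial.coeff_add,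
      Polynomial.coeff_mul_C]
    refine add_mem (mul_mem (hp n) (h _)) ?_
    cases n with
    | zero => simp
    | succ n =>
      rw [Polynomial.coeff_mul_X, Polynomial.coeff_mul_C]
      exact mul_mem (hp n) (h _)

lemma mem_cl_of_pts (h : t ∈ Pts m l) : t ∈ cl C (range l) :=
  H88.mem_cl_of_root (mem_pts.1 h).1 (coeff_sec_mem (fun i => subset_cl _ (mem_range_self i)) _)
    ((eval_sec ..).trans (mem_pts.1 h).2)

lemma dot_mem_cl {S : Set Ω} {a b : ι → Ω} (ha : ∀ i, a i ∈ cl C S) (hb : ∀ i, b i ∈ cl C S) :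
    a ⬝ᵥ b ∈ cl C S := sum_mem fun i _ => mul_mem (ha i) (hb i)

lemma rf_mem_cl {S : Set Ω} {N u : ι → Ω} (hN : ∀ i, N i ∈ cl C S) (hu : ∀ i, u i ∈ cl C S)
    (i : ι) : rf N u i ∈ cl C S :=
  sub_mem (hu i) (mul_mem (div_mem (mul_mem (ofNat_mem _ 2) (dot_mem_cl hN hu))
    (dot_mem_cl hN hN)) (hN i))

lemma St.sub_cl (h : St m l t l') : range l' ⊆ cl C (range l) := by
  have h0 : ∀ i, l i ∈ cl C (range l) := fun i => subset_cl _ ⟨i, rfl⟩
  have h1 := mem_cl_of_pts h.mem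
  rintro _ ⟨i, rfl⟩
  rw [h.eq_edge]
  exact edge_mem_cl (pt_mem_cl h0 h1) (rf_mem_cl (fun _ => aeval_mem_cl (pt_mem_cl h0 h1) _)
    fun i => h0 _) h1 i

lemma St.rk_eq (h : St m l t l') : rk C (range l') = rk C (range l) :=
  rk_congr h.sub_cl h.symm.sub_cl

lemma St.gen (h : St m l t l') (hl : Gen C l) : Gen C l' :=
  gen_iff_rk.2 (h.rk_eq ▸ gen_iff_rk.1 hl)

lemma St.cur (h : St m l t l') (hl : Cur C l) : Cur C l' :=
  cur_iff_rk.2 (h.rk_eq ▸ cur_iff_rk.1 hl)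

lemma Mir.On.zero (h : m.On q) : MvPolynomial.aeval q m.f = 0 := (h _).2 dvd_rfl

lemma Mir.On.rk (h : m.On q) : rk C (range q) + 1 = Fintype.card ι :=
  cur_iff_rk.1 ⟨_, m.prime, h⟩

lemma on_of_rk (h : MvPolynomial.aeval q m.f = 0)
    (hr : (Fintype.card ι : ℕ∞) ≤ rk C (range q) + 1) : m.On q := ker_of_rk m.prime h hr

lemma Mir.On.nn (h : m.On q) : grad m.f q ⬝ᵥ grad m.f q ≠ 0 := fun e =>
  m.nn ((h _).1 (by simpa [dotProduct, grad] using e))

lemma Mir.On.grad_ne (h : m.On q) : grad m.f q ≠ 0 := fun e => h.nn (by simp [e])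

lemma Mir.On.eq (h : m.On q) (h' : m'.On q) : m = m' :=
  Mir.ext_of_associated (associated_of_dvd_dvd ((h _).1 h'.zero) ((h' _).1 h.zero))

/-- The points of a generic edge have large rank. -/
lemma gen_rk_pt (hl : Gen C l) (t : Ω) :
    (Fintype.card ι : ℕ∞) ≤ rk C (range (pt l t)) + 1 := by
  have h1 := ((gen_iff_rk.1 hl).trans (rk_edge_le l t)).trans (add_le_add_left
    ((H88.rk_union _ _).trans (add_le_add_right (H88.rk_le_card (dir l)) _)) 1)
  rw [Fintype.card_sum, Nat.cast_add, add_right_comm] at h1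
  exact (ENat.add_le_add_iff_right (ENat.natCast_ne_top _)).1 h1

lemma gen_on (hl : Gen C l) (h : MvPolynomial.aeval (pt l t) m.f = 0) : m.On (pt l t) :=
  on_of_rk h (gen_rk_pt hl t)

/-- Tangent edges at simple points have small rank. -/
lemma rk_tan {F : MvPolynomial ι C} (h0 : grad F (pt l t) ≠ 0) (h : grad F (pt l t) ⬝ᵥ dir l = 0) :
    rk C (range l) ≤ rk C (range (pt l t)) + Fintype.card ι :=
  (rk_edge_le l t).trans (rk_lin (fun _ => aeval_mem_cl (fun i => subset_cl _ (mem_range_self i)) _)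
    (zero_mem _) h0 h)

lemma gen_nu (hl : Gen C l) (h : MvPolynomial.aeval (pt l t) m.f = 0) :
    grad m.f (pt l t) ⬝ᵥ dir l ≠ 0 := fun e => by
  have h1 := gen_on hl h
  have h2 := add_le_add_left ((gen_iff_rk.1 hl).trans (rk_tan h1.grad_ne e)) 1
  rw [add_right_comm (rk C _), h1.rk, Fintype.card_sum] at h2
  norm_cast at h2
  omega

/-- Every point of a generic edge is a vertex. -/
lemma gen_step (hl : Gen C l) (h : t ∈ Pts m l) : ∃ l', St m l t l' :=
  ⟨_, st_edge (mem_pts.1 h).2 (gen_on hl (mem_pts.1 h).2).nn (gen_nu hl (mem_pts.1 h).2)⟩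

lemma natDegree_sec_le (F : MvPolynomial ι C) (l : ι ⊕ ι → Ω) :
    (sec F l).natDegree ≤ F.totalDegree := by
  classical
  refine Polynomial.natDegree_le_iff_coeff_eq_zero.2 fun d hd => ?_
  rw [sec, H17.Cm.coeff_line hd.le, MvPolynomial.homogeneousComponent_eq_zero _ _ hd, map_zero]

omit [Fintype ι] in
lemma top_ne {F : MvPolynomial ι C} (hF : F ≠ 0) :
    MvPolynomial.homogeneousComponent F.totalDegree F ≠ 0 := fun e => by
  obtain ⟨d, hd, e1⟩ := Finset.exists_mem_eq_sup F.support (MvPolynomial.support_nonempty.2 hF)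
    (fun s => s.sum fun _ e => e)
  have := congrArg (MvPolynomial.coeff d) e
  rw [MvPolynomial.coeff_homogeneousComponent, if_pos (by exact e1.symm)] at this
  exact MvPolynomial.mem_support_iff.1 hd this

lemma coeff_sec_ne {F : MvPolynomial ι C} (hF : F ≠ 0) (hl : Gen C (dir l)) :
    (sec F l).coeff F.totalDegree ≠ 0 := by
  classical
  rw [sec, H17.Cm.coeff_line le_rfl]
  exact fun e => top_ne hF (hl _ e)

lemma natDegree_sec {F : MvPolynomial ι C} (hF : F ≠ 0) (hl : Gen C (dir l)) :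
    (sec F l).natDegree = F.totalDegree :=
  le_antisymm (natDegree_sec_le F l) (Polynomial.le_natDegree_of_ne_zero (coeff_sec_ne hF hl))

lemma sec_ne {F : MvPolynomial ι C} (hF : F ≠ 0) (hl : Gen C (dir l)) : sec F l ≠ 0 := fun e =>
  coeff_sec_ne hF hl (by simp [e])

lemma card_pts_le (m : Mir k C ι) (l : ι ⊕ ι → Ω) : (Pts m l).card ≤ m.f.totalDegree := by
  classical
  exact (Multiset.toFinset_card_le _).trans ((Polynomial.card_roots' _).trans
    (natDegree_sec_le _ _))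

lemma card_pts [IsAlgClosed Ω] (m : Mir k C ι) (hl : Gen C l) :
    (Pts m l).card = m.f.totalDegree := by
  classical
  have h0 := sec_ne m.prime.ne_zero (gen_dir hl)
  rw [← natDegree_sec m.prime.ne_zero (gen_dir hl),
    (IsAlgClosed.splits (sec m.f l)).natDegree_eq_card_roots, Pts]
  refine Multiset.toFinset_card_of_nodup (Multiset.nodup_iff_count_le_one.2 fun t => ?_)
  rw [Polynomial.count_roots]
  by_contra! h
  obtain ⟨h1, h2⟩ := (Polynomial.one_lt_rootMultiplicity_iff_isRoot h0).1 h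
  exact gen_nu hl ((eval_sec ..).symm.trans h1) ((eval_derivative_sec ..).symm.trans h2)

theorem bas [DecidableEq ι] [IsAlgClosed Ω] : (sys k C Ω ι).Bas where
  symm _ _ _ _ := St.symm
  mem _ _ _ _ := St.mem
  stb _ _ _ hσ _ := pts_stb hσ
  map _ _ _ _ σ h := h.map σ
  det _ _ _ _ _ := St.det
  gen _ _ _ _ := St.gen
  cur _ _ _ _ := St.cur
  dis _ _ _ _ hl h h' := (gen_on hl (mem_pts.1 h).2).eq (gen_on hl (mem_pts.1 h').2)
  two m l h := (card_pts_le m l).trans h.le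
  card m _ hl := m.deg.trans (card_pts m hl).ge
  qd m _ hl h := (card_pts m hl).symm.trans h
  cs _ _ h := ⟨h.1.symm, h.2.imp H17.Cm.Conf.symm Or.symm⟩
  ci _ h := h.1 rfl

lemma mem_pts_iff (hl : Gen C (dir l)) (s : Ω) :
    s ∈ Pts m l ↔ MvPolynomial.aeval (pos l + s • dir l) m.f = 0 :=
  mem_pts.trans (and_iff_right (sec_ne m.prime.ne_zero hl))

theorem pass [DecidableEq ι] [CharZero Ω] : (sys k C Ω ι).PASS := by
  intro m m' l t l' hc hl h σ hσ ht
  have h1 : H17.Cm.Pass Ω m.f m'.f := hc.2.elim (·.pass) (·.elim (·.pass) (·.pass'))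
  have g0 := gen_dir hl
  have g1 := gen_dir (St.gen h hl)
  exact h1.sg rfl h.pt_eq.symm h.zero h.nn h.dir_eq (fun e => top_ne m'.prime.ne_zero (g0 _ e))
    (fun e => top_ne m'.prime.ne_zero (g1 _ e)) (mem_pts_iff g0) (mem_pts_iff g1)
    (fun _ => hσ _ ⟨_, rfl⟩) (fun _ => hσ _ ⟨_, rfl⟩) ht ht

omit [Fintype ι] in
/-- A hypersurface with a generic real point has non isotropic normals. -/
lemma nn_of_real [Fintype ι] {G : MvPolynomial ι k} {y : ι → ℝ} (h0 : 0 < G.totalDegree)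
    (hy : ∀ P : MvPolynomial ι k, MvPolynomial.aeval y P = 0 ↔ G ∣ P) :
    ¬G ∣ ∑ i, MvPolynomial.pderiv i G * MvPolynomial.pderiv i G := fun h => by
  classical
  have : CharZero k := (algebraMap k ℝ).charZero
  have G0 : G ≠ 0 := by rintro rfl; simp at h0
  have h1 := (hy _).2 h
  simp only [map_sum, map_mul] at h1
  rw [Finset.sum_eq_zero_iff_of_nonneg fun i _ => mul_self_nonneg _] at h1
  have h2 : ∀ i, MvPolynomial.pderiv i G = 0 := fun i => by_contra fun e =>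
    absurd (MvPolynomial.totalDegree_le_of_dvd_of_isDomain
      ((hy _).1 (mul_self_eq_zero.1 (h1 i (Finset.mem_univ i)))) e)
      (not_le.2 (H88.totalDegree_pderiv_lt e))
  obtain ⟨d, hd, e1⟩ := Finset.exists_mem_eq_sup G.support (MvPolynomial.support_nonempty.2 G0)
    (fun s => s.sum fun _ e => e)
  obtain ⟨i, hi⟩ : ∃ i, d i ≠ 0 := by
    by_contra! hn
    rw [MvPolynomial.totalDegree, e1, show d = 0 from Finsupp.ext hn] at h0
    simp at h0
  have h3 := congrArg (MvPolynomial.coeff (d - Finsupp.single i 1)) (h2 i)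
  rw [MvPolynomial.coeff_pderiv, Finsupp.sub_add_single_one_cancel hi] at h3
  exact mul_ne_zero (MvPolynomial.mem_support_iff.1 hd) (by norm_cast) h3

end Pool.Agent.MP_249f74_an.H32
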