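import Pool.Agent.MP_249f74_an.H32.Bas
import Pool.Agent.MP_249f74_an.H27.Lift

/-!
The inertia element at the complex of tangent edges moves the points near the point of contact.
-/

open Set Matrix Polynomial

namespace Pool.Agent.MP_249f74_an.H32

open H17.Cm (grad rf line)
open H42 (ev Gen Cur FL mp Sp)
open H88 (rk cl subset_cl)
open H96A (Pl)
open H96A.Lift (SP)
open H27 (SV sv_pt sv_dir sv_pos sv_edge)

variable {k C Ω ι κ : Type} [Field k] [Algebra k ℝ] [Field C] [Algebra k C] [Field Ω]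
  [Algebra C Ω] [CharZero Ω] [Fintype ι] [Fintype κ]

/-- Tangent vectors at a generic point are values of derivations. -/
lemma ex_tan {f : MvPolynomial κ C} {q : κ → Ω} (hq : ∀ p, ev q p = 0 ↔ f ∣ p)
    {v : κ → Ω} (hv : grad f q ⬝ᵥ v = 0) : ∃ D : Derivation C Ω Ω, ∀ i, D (q i) = v i := by
  classical
  obtain ⟨D, hD⟩ := H17.ext_der (MvPolynomial.aeval q : MvPolynomial κ C →ₐ[C] Ω)
    { toFun := fun p => ∑ i, grad p q i * v i
      map_zero' := by simp [grad]
      map_add' := fun a b => by simp [grad, add_mul, Finset.sum_add_distrib] }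
    (fun a b => by simp [grad, add_mul, Finset.sum_add_distrib, Finset.mul_sum, mul_assoc])
    (fun a ha => by
      obtain ⟨g, rfl⟩ := (hq a).1 ha
      have : MvPolynomial.aeval q f = 0 := (hq f).2 dvd_rfl
      simp only [grad, dotProduct] at hv
      simp [grad, this, mul_assoc, ← Finset.mul_sum, hv])
    (fun c => by simp [grad])
  exact ⟨D, fun i => by
    simpa [grad, MvPolynomial.pderiv_X, Pi.single_apply, apply_ite] using hD (.X i)⟩

omit [CharZero Ω] in
lemma der_ev (D : Derivation C Ω Ω) (q : κ → Ω) (F : MvPolynomial κ C) :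
    D (MvPolynomial.aeval q F) = grad F q ⬝ᵥ fun i => D (q i) := by
  classical exact H17.Cm.der_aeval D q F

omit [CharZero Ω] in
lemma der_dot (D : Derivation C Ω Ω) (a b : κ → Ω) :
    D (a ⬝ᵥ b) = (fun i => D (a i)) ⬝ᵥ b + a ⬝ᵥ fun i => D (b i) := by
  simp [dotProduct, Finset.sum_add_distrib, mul_comm, add_comm]

omit [CharZero Ω] in
/-- The second derivative along a line. -/
lemma eval_der2 (F : MvPolynomial κ C) (x u : κ → Ω) (s : Ω) :
    (line F x u).derivative.derivative.eval s =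
      (fun i => grad (MvPolynomial.pderiv i F) (x + s • u) ⬝ᵥ u) ⬝ᵥ u := by
  classical
  rw [H17.Cm.derivative_line, derivative_sum, eval_finsetSum, dotProduct]
  simp [H17.Cm.eval_derivative_line]

lemma grad_ne {f : MvPolynomial κ C} {q : κ → Ω} (hf : Prime f) (hq : ∀ p, ev q p = 0 ↔ f ∣ p) :
    grad f q ≠ 0 := fun e => by
  classical
  have : CharZero C := (algebraMap C Ω).charZero
  obtain ⟨n, hn⟩ : ∃ n, Fintype.card κ = n + 1 := Nat.exists_eq_succ_of_ne_zero fun e => by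
    simpa [e] using cur_iff_rk.1 ⟨f, hf, hq⟩
  have h1 := cur_iff_rk.1 ⟨f, hf, hq⟩
  rw [hn, Nat.cast_add, Nat.cast_one] at h1
  obtain ⟨j, hj⟩ := H88.exists_pderiv_ne (H88.gen_of_rk hn
    ((ENat.add_le_add_iff_right ENat.one_ne_top).1 h1.ge)) hf.irreducible ((hq f).2 dvd_rfl)
  exact hj (congrFun e j)

/-- A linear relation between the differentials is a multiple of the gradient. -/
lemma eq_smul_grad {f : MvPolynomial κ C} {q n : κ → Ω} (hf : Prime f)
    (hq : ∀ p, ev q p = 0 ↔ f ∣ p) (h : ∀ D : Derivation C Ω Ω, n ⬝ᵥ (fun i => D (q i)) = 0) :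
    ∃ c : Ω, n = c • grad f q := by
  classical
  obtain ⟨j, hj⟩ := Function.ne_iff.1 (grad_ne hf hq)
  refine ⟨n j / grad f q j, funext fun i => ?_⟩
  obtain ⟨D, hD⟩ := ex_tan hq (v := Pi.single i (grad f q j) - Pi.single j (grad f q i))
    (by simp [mul_comm])
  have := h D
  simp only [funext hD, dotProduct_sub, dotProduct_single] at this
  have hj' : grad f q j ≠ 0 := hj
  simp only [Pi.smul_apply, smul_eq_mul]
  field_simp
  linear_combination this

variable {m : Mir k C ι} {l e : ι ⊕ ι → Ω} {t y : Ω} {π : MvPolynomial (ι ⊕ ι) C}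

omit [CharZero Ω] in
lemma dot_edge (a b : ι ⊕ ι → Ω) : a ⬝ᵥ b = pos a ⬝ᵥ pos b + dir a ⬝ᵥ dir b := by
  simp [dotProduct, pos, dir]

omit [CharZero Ω] [Fintype ι] in
lemma der_pt (D : Derivation C Ω Ω) (l : ι ⊕ ι → Ω) (t : Ω) :
    (fun i => D (pt l t i)) = pt (fun i => D (l i)) t + D t • dir l := by
  ext i; simp [pt, pos, dir]; ring

/-- The gradient of the equation of a complex of tangent edges has rank one. -/
lemma grad_tan {F : MvPolynomial ι C} (hπ : Prime π) (he : ∀ G, ev e G = 0 ↔ π ∣ G)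
    (h0 : MvPolynomial.aeval (pt e t) F = 0) (h1 : grad F (pt e t) ≠ 0)
    (h : grad F (pt e t) ⬝ᵥ dir e = 0) :
    ∃ μ : Ω, μ ≠ 0 ∧ grad π e = μ • Sum.elim (grad F (pt e t)) (t • grad F (pt e t)) := by
  obtain ⟨c, hc⟩ := eq_smul_grad (n := Sum.elim (grad F (pt e t)) (t • grad F (pt e t))) hπ he
    fun D => by
      have := der_ev D (pt e t) F
      rw [h0, map_zero, der_pt, dotProduct_add, dotProduct_smul, h, smul_zero, add_zero] at this
      generalize grad F (pt e t) = N at this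
      rw [pt, dotProduct_add, dotProduct_smul] at this
      rw [dot_edge, this, ← smul_dotProduct]
      rfl
  have c0 : c ≠ 0 := fun e => h1 (funext fun i => by simpa [e] using congrFun hc (.inl i))
  exact ⟨c⁻¹, inv_ne_zero c0, by rw [hc, inv_smul_smul₀ c0]⟩

/-- The normal direction in the space of edges through a point. -/
noncomputable def nrm (N : ι → Ω) (t : Ω) : ι ⊕ ι → Ω := edge 0 ((N ⬝ᵥ N)⁻¹ • N) t

omit [CharZero Ω] in
lemma dot_nrm (M N : ι → Ω) (t : Ω) : Sum.elim M (t • M) ⬝ᵥ nrm N t = 0 := by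
  rw [dot_edge]
  change M ⬝ᵥ (0 - _) + (t • M) ⬝ᵥ _ = 0
  simp [nrm]; ring

/-- Second order contact. -/
lemma contact (hπ : Prime π) (he : ∀ G, ev e G = 0 ↔ π ∣ G) (h0 : m.On (pt e t))
    (h : grad m.f (pt e t) ⬝ᵥ dir e = 0) : (sec m.f e).derivative.derivative.eval t ≠ 0 ∧
      (line π e (nrm (grad m.f (pt e t)) t)).derivative.derivative.eval 0 ≠ 0 := by
  obtain ⟨μ, μ0, hμ⟩ := grad_tan hπ he h0.zero h0.grad_ne h
  obtain ⟨D, hD⟩ := ex_tan he (v := nrm (grad m.f (pt e t)) t) (by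
    rw [hμ, smul_dotProduct, dot_nrm, smul_zero])
  have nn := h0.nn
  have h1 := der_pt D e t
  have h2 := congrArg D h
  have h3 : ∀ i, D (grad m.f (pt e t) i) =
      D t * (grad (MvPolynomial.pderiv i m.f) (pt e t) ⬝ᵥ dir e) := fun i => by
    rw [grad, der_ev, h1, funext hD, nrm, pt_edge, zero_add, dotProduct_smul, smul_eq_mul]
  have h4 : (fun i => D (dir e i)) = (grad m.f (pt e t) ⬝ᵥ grad m.f (pt e t))⁻¹ •
    grad m.f (pt e t) := funext fun i => hD (.inr i)
  rw [der_dot, h4, dotProduct_smul, smul_eq_mul, inv_mul_cancel₀ nn, map_zero, funext h3] at h2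
  have h5 : D t * (sec m.f e).derivative.derivative.eval t + 1 = 0 := by
    rw [← h2, sec, eval_der2, ← smul_eq_mul, ← smul_dotProduct]; rfl
  refine ⟨fun e => by simp [e] at h5, ?_⟩
  have h6 : ∀ i, grad (MvPolynomial.pderiv i π) e ⬝ᵥ nrm (grad m.f (pt e t)) t =
      D (grad π e i) := fun i => by rw [grad, der_ev, funext hD]
  rw [eval_der2, zero_smul, add_zero, funext h6, hμ]
  generalize grad m.f (pt e t) = N at nn ⊢
  have h7 : (fun i => D ((μ • Sum.elim N (t • N) : ι ⊕ ι → Ω) i)) = D μ • Sum.elim N (t • N) +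
      μ • Sum.elim (fun i => D (N i)) (t • fun i => D (N i)) + (μ * D t) • Sum.elim (0 : ι → Ω) N := by
    ext (i | i) <;> simp <;> ring
  rw [h7, add_dotProduct, add_dotProduct, smul_dotProduct, smul_dotProduct, smul_dotProduct,
    dot_nrm, dot_nrm, dot_edge]
  change _ + _ + _ • (0 ⬝ᵥ _ + N ⬝ᵥ (_ • N)) ≠ 0
  have h8 : D t ≠ 0 := fun e => by simp [e] at h5
  simp [inv_mul_cancel₀ nn, μ0, h8]

/-- The point of contact is a double point of the section. -/
lemma own_two (he : Cur C e) (h0 : m.On (pt e t)) (h : grad m.f (pt e t) ⬝ᵥ dir e = 0) :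
    sec m.f e ≠ 0 ∧ (sec m.f e).rootMultiplicity t = 2 := by
  obtain ⟨π, hπ, he⟩ := he
  have h1 := (contact hπ he h0 h).1
  have h2 : sec m.f e ≠ 0 := fun e => h1 (by simp [e])
  refine ⟨h2, le_antisymm (not_lt.1 fun h3 => h1 ?_) ?_⟩
  · exact isRoot_iterate_derivative_of_lt_rootMultiplicity h3
  · exact (one_lt_rootMultiplicity_iff_isRoot h2).2
      ⟨(eval_sec ..).trans h0.zero, (eval_derivative_sec ..).trans h⟩

/-- The inertia element moves the points that specialize to the point of contact. -/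
theorem move [IsAlgClosed Ω] {P : Pl C Ω} (hl : Gen C l) (hπ : Prime π)
    (he : ∀ G, ev e G = 0 ↔ π ∣ G) (h0 : m.On (pt e t)) (h : grad m.f (pt e t) ⬝ᵥ dir e = 0)
    (tid : ∀ e' : ι ⊕ ι → Ω, Tl m e' → ∀ G, ev e' G = 0 ↔ π ∣ G) (hP : Sp P l e)
    (hr : ∀ r, r ^ 2 = ev l π → P.σ r = -r) (hy : y ∈ Pts m l) (hs : P.sp y t) : P.σ y ≠ y := by
  classical
  intro fy
  have z := (mem_pts.1 hy).2
  have on := gen_on hl z
  have g0 := gen_nu hl z
  have nn := on.nn
  have sN := (sv_pt hP.sp hs).grad m.f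
  have sg := sN.dot (sv_dir hP.sp)
  have fg : P.σ (grad m.f (pt l y) ⬝ᵥ dir l) = grad m.f (pt l y) ⬝ᵥ dir l := by
    rw [← dot_map, ← grad_map, ← pt_mp, ← dir_mp, mp_eq hP.fx, fy]
  have sξ : SV P (nrm (grad m.f (pt l y)) y) (nrm (grad m.f (pt e t)) t) :=
    sv_edge (fun _ => H96A.Lift.sp0 P) (sN.smul (H96A.Lift.inv (sN.dot sN) h0.nn)) hs
  have c2 := (contact hπ he h0 h).2
  have mN : ∀ S : Set Ω, (∀ i, pt l y i ∈ cl C S) → ∀ i, grad m.f (pt l y) i ∈ cl C S :=
    fun S hS _ => aeval_mem_cl hS _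
  rw [h] at sg
  obtain ⟨N, hN⟩ : ∃ N, N = grad m.f (pt l y) := ⟨_, rfl⟩
  rw [← hN] at g0 nn sg fg sξ mN
  obtain ⟨g, hg⟩ : ∃ g, g = N ⬝ᵥ dir l := ⟨_, rfl⟩
  rw [← hg] at g0 sg fg
  obtain ⟨a, ha⟩ : ∃ a, a = l - g • nrm N y := ⟨_, rfl⟩
  have sa : SV P a e := by simpa [ha] using SV.sub hP.sp (sξ.smul sg)
  have pa : pt a y = pt l y := by
    ext i; simp [ha, pt, pos, dir, nrm, edge]; ring
  have da : N ⬝ᵥ dir a = 0 := by
    change N ⬝ᵥ (fun i => a (.inr i)) = 0
    rw [ha]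
    change N ⬝ᵥ (dir l - g • ((N ⬝ᵥ N)⁻¹ • N)) = 0
    simp [inv_mul_cancel₀ nn, hg]
  have ya : y ∈ cl C (range a) := mem_cl_of_pts (m := m) (mem_pts.2
    ⟨(SP.deg ((sv_pos sa).line (sv_dir sa) m.f) (own_two ⟨π, hπ, he⟩ h0 h).1).1, pa ▸ z⟩)
  have ca : Cur C a := by
    refine cur_iff_rk.2 (le_antisymm ?_ ((gen_iff_rk.1 hl).trans
      ((H88.rk_le ?_).trans (H88.rk_insert_le _ g))))
    · have := add_le_add_left (rk_tan (l := a) (t := y) (F := m.f) (pa ▸ on.grad_ne)
        (by rw [pa, ← hN, da])) 1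
      rwa [add_right_comm (rk C _), pa, on.rk, ← Nat.cast_add, ← Fintype.card_sum] at this
    · have h1 : ∀ i, a i ∈ cl C (insert g (range a)) := fun i => subset_cl _ (by simp)
      have h2 : y ∈ cl C (insert g (range a)) :=
        H17.cl_le ((subset_insert _ _).trans (subset_cl _)) ya
      have h3 := mN _ (pa ▸ pt_mem_cl h1 h2)
      rintro _ ⟨i, rfl⟩
      rw [show l i = a i + g * nrm N y i by simp [ha]]
      exact add_mem (h1 i) (mul_mem (subset_cl _ (by simp)) (edge_mem_cl (fun _ => zero_mem _)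
        (fun i => mul_mem (inv_mem (dot_mem_cl h3 h3)) (h3 i)) h2 i))
  have ta := tid a ⟨ca, y, pa ▸ on, by rw [pa, ← hN, da]⟩
  obtain ⟨μ, -, hμ⟩ := grad_tan hπ ta (pa ▸ z) (pa ▸ on.grad_ne) (by rw [pa, ← hN, da])
  have sφ := sa.line sξ π
  have e0 := H17.Cm.eval_line π a (nrm N y) 0
  have e1 := H17.Cm.eval_derivative_line π a (nrm N y) 0
  have e2 := H17.Cm.eval_line π a (nrm N y) g
  rw [zero_smul, add_zero] at e0 e1
  rw [hμ, smul_dotProduct, dot_nrm, smul_zero] at e1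
  rw [show MvPolynomial.aeval a π = 0 from (ta π).2 dvd_rfl] at e0
  rw [show a + g • nrm N y = l by simp [ha]] at e2
  generalize line π a (nrm N y) = φ at sφ e0 e1 e2
  generalize line π e _ = ψ at sφ c2
  have s1 := SP.eval (p := φ.divX.divX) (q := ψ.divX.divX)
    (fun i => by simpa [coeff_divX] using sφ (i + 1 + 1)) sg
  have s2 : ψ.divX.divX.eval 0 ≠ 0 := fun e => c2 (by
    simp only [← coeff_zero_eq_eval_zero, coeff_divX, coeff_derivative] at e ⊢
    simp [e])
  have s3 : ev l π = g ^ 2 * φ.divX.divX.eval g := by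
    simp only [← coeff_zero_eq_eval_zero, coeff_derivative] at e0 e1
    have a1 := congrArg (eval g) (X_mul_divX_add φ)
    have a2 := congrArg (eval g) (X_mul_divX_add φ.divX)
    rw [e0, e2] at a1
    rw [coeff_divX, show φ.coeff (0 + 1) = 0 by simpa using e1] at a2
    simp only [eval_mul, eval_X, map_zero, add_zero] at a1 a2
    rw [ev, ← a1, ← a2]; ring
  generalize φ.divX.divX.eval g = w at s1 s3
  have s4 : P.σ w = w := by
    have := ev_mp P.σ l π
    rw [mp_eq hP.fx, s3, map_mul, map_pow, fg] at this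
    exact (mul_left_cancel₀ (pow_ne_zero _ g0) this).symm
  obtain ⟨r, hr0⟩ := IsAlgClosed.exists_pow_nat_eq w two_pos
  have r1 := hr (g * r) (by rw [mul_pow, hr0, s3])
  rw [map_mul, fg, H96A.Lift.unit s1 s2 s4 hr0, ← add_eq_zero_iff_eq_neg, add_self_eq_zero] at r1
  exact hπ.ne_zero (hl π (by rw [s3, ← hr0, ← mul_pow, r1]; simp))

end Pool.Agent.MP_249f74_an.H32
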