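import Pool.Agent.MP_249f74_an.H32.Move
import Pool.Agent.MP_249f74_an.H42.Par

/-!
The discriminant of the section of a quadric vanishes only on the complex of tangent edges.
-/

open Matrix hiding vec vec_smul
open Set MvPolynomial

namespace Pool.Agent.MP_249f74_an.H32

open H17.Cm (grad hat vec quad sp symm_dot aeval_quad grad_quad hat_add vec_smul vec_dot hat_dot)
open H42 (ev Gen Cur FL mp Sp Sf)
open H88 (rk cl subset_cl)

variable {k C Ω ι : Type} [Field k] [Algebra k ℝ] [Field C] [Algebra k C] [Field Ω]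
  [Algebra C Ω] [Fintype ι] [DecidableEq ι]

/-- Polynomials of degree at most two are given by symmetric matrices. -/
lemma ex_quad [CharZero C] {F : MvPolynomial ι C} (h : F.totalDegree ≤ 2) :
    ∃ A : Matrix (Option ι) (Option ι) C, A.IsSymm ∧ F = quad A := by
  have key : ∀ (o o' : Option ι) (c : C), ∃ A : Matrix (Option ι) (Option ι) C, A.IsSymm ∧
      MvPolynomial.C c * (hat X o * hat X o') = quad A := fun o o' c => by
    refine ⟨single o o' (c / 2) + single o' o (c / 2), by simp [IsSymm, add_comm], ?_⟩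
    have e : ∀ a b, hat X ⬝ᵥ (single a b (c / 2)).map (MvPolynomial.C (σ := ι)) *ᵥ hat X =
        MvPolynomial.C (c / 2) * (hat X a * hat X b) := fun a b => by
      rw [Matrix.map_single, single_mulVec]
      simp [dotProduct, Function.update_apply]; ring
    rw [quad, Matrix.map_add _ (map_add _), add_mulVec, dotProduct_add, e, e, mul_comm (hat X o'),
      ← add_mul, ← map_add, add_halves]
  rw [F.as_sum]
  refine Finset.sum_induction _ (fun G => ∃ A : Matrix _ _ C, A.IsSymm ∧ G = quad A) ?_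
    ⟨0, by simp, by simp [quad]⟩ fun d hd => ?_
  · rintro _ _ ⟨A, h1, rfl⟩ ⟨B, h2, rfl⟩
    exact ⟨A + B, h1.add h2, by simp [quad, Matrix.map_add, add_mulVec]⟩
  · have h1 : (Finsupp.toMultiset d).card ≤ 2 := by
      rw [Finsupp.card_toMultiset]; exact (le_totalDegree hd).trans h
    obtain ⟨s, rfl⟩ := Multiset.toFinsupp.surjective d
    rw [Multiset.toFinsupp_toMultiset] at h1
    generalize coeff _ F = c
    have h2 : s.card = 0 ∨ s.card = 1 ∨ s.card = 2 := by omega
    rw [Multiset.card_eq_zero, Multiset.card_eq_one, Multiset.card_eq_two] at h2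
    rcases h2 with rfl | ⟨a, rfl⟩ | ⟨a, b, rfl⟩
    · simpa [hat] using key none none c
    · simpa [hat, C_mul_X_eq_monomial] using key none (some a) c
    · convert key (some a) (some b) c
      rw [Multiset.insert_eq_cons, ← Multiset.singleton_add, map_add]
      simp [hat, X, monomial_mul, C_mul_monomial]

section Bil

variable {n R S : Type} [Fintype n] [CommRing R] [Algebra C R] [CommRing S] [Algebra C S]

/-- The bilinear form of a constant matrix. -/
def bl (A : Matrix n n C) (p q : n → R) : R := p ⬝ᵥ A.map (algebraMap C R) *ᵥ q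

lemma map_bl (φ : R →ₐ[C] S) (A : Matrix n n C) (p q : n → R) :
    φ (bl A p q) = bl A (φ ∘ p) (φ ∘ q) := by
  simp [bl, dotProduct, mulVec]

lemma der_bl (δ : Derivation C R R) (A : Matrix n n C) (p q : n → R) :
    δ (bl A p q) = bl A (δ ∘ p) q + bl A p (δ ∘ q) := by
  simp only [bl, dotProduct, mulVec, map_sum, Derivation.leibniz, smul_eq_mul, map_apply,
    Derivation.map_algebraMap, Function.comp, ← Finset.sum_add_distrib]
  exact Finset.sum_congr rfl fun _ _ => by simp [add_comm, mul_comm]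

lemma bl_symm {A : Matrix n n C} (hA : A.IsSymm) (p q : n → R) : bl A p q = bl A q p :=
  symm_dot (hA.map _) p q

lemma bl_add (A : Matrix n n C) (p q q' : n → R) : bl A p (q + q') = bl A p q + bl A p q' := by
  simp [bl, mulVec_add]

lemma bl_smul (A : Matrix n n C) (p q : n → R) (s : R) : bl A p (s • q) = s * bl A p q := by
  simp [bl, mulVec_smul]

lemma degreeOf_bl {σ : Type} (A : Matrix n n C) {p q : n → MvPolynomial σ C} (j : σ) {a b : ℕ}
    (hp : ∀ o, (p o).degreeOf j ≤ a) (hq : ∀ o, (q o).degreeOf j ≤ b) :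
    (bl A p q).degreeOf j ≤ a + b :=
  (degreeOf_sum_le ..).trans (Finset.sup_le fun o _ => (degreeOf_mul_le ..).trans
    (add_le_add (hp o) ((degreeOf_sum_le ..).trans (Finset.sup_le fun o' _ =>
      (degreeOf_C_mul_le ..).trans (hq o')))))

end Bil

/-- The discriminant of the section of a quadric. -/
noncomputable def dsc (A : Matrix (Option ι) (Option ι) C) : MvPolynomial (ι ⊕ ι) C :=
  bl A (hat fun i => X (.inl i)) (vec fun i => X (.inr i)) ^ 2 -
    bl A (hat fun i => X (.inl i)) (hat fun i => X (.inl i)) *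
      bl A (vec fun i => X (.inr i)) (vec fun i => X (.inr i))

variable {A : Matrix (Option ι) (Option ι) C} {m : Mir k C ι} {l e : ι ⊕ ι → Ω} {t : Ω}

omit [Fintype ι] [DecidableEq ι] in
lemma ev_hat (l : ι ⊕ ι → Ω) : ev (C := C) l ∘ (hat fun i => X (.inl i)) = hat (pos l) := by
  ext (_ | i) <;> simp [ev, hat, pos]

omit [Fintype ι] [DecidableEq ι] in
lemma ev_vec (l : ι ⊕ ι → Ω) : ev (C := C) l ∘ (vec fun i => X (.inr i)) = vec (dir l) := by
  ext (_ | i) <;> simp [ev, vec, dir]

omit [DecidableEq ι] in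
lemma ev_dsc (A : Matrix (Option ι) (Option ι) C) (l : ι ⊕ ι → Ω) : ev l (dsc A) =
    bl A (hat (pos l)) (vec (dir l)) ^ 2 -
      bl A (hat (pos l)) (hat (pos l)) * bl A (vec (dir l)) (vec (dir l)) := by
  simp only [dsc, map_sub, map_pow, map_mul, map_bl, ev_hat, ev_vec]

lemma degreeOf_dsc (A : Matrix (Option ι) (Option ι) C) (j : ι ⊕ ι) : (dsc A).degreeOf j ≤ 2 := by
  obtain ⟨a, b, h, h1, h2⟩ : ∃ a b, a + b = 1 ∧
      (∀ o, (hat (fun i => (X (.inl i) : MvPolynomial (ι ⊕ ι) C)) o).degreeOf j ≤ a) ∧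
      ∀ o, (vec (fun i => (X (.inr i) : MvPolynomial (ι ⊕ ι) C)) o).degreeOf j ≤ b := by
    cases j
    · refine ⟨1, 0, rfl, ?_, ?_⟩ <;> rintro (_ | i) <;> simp [hat, vec, degreeOf_X]
      split_ifs <;> simp
    · refine ⟨0, 1, rfl, ?_, ?_⟩ <;> rintro (_ | i) <;> simp [hat, vec, degreeOf_X]
      split_ifs <;> simp
  refine (degreeOf_sub_le ..).trans (max_le ((degreeOf_pow_le ..).trans ?_)
    ((degreeOf_mul_le ..).trans ?_))
  · have := degreeOf_bl A j h1 h2; omega
  · have := degreeOf_bl A j h1 h1; have := degreeOf_bl A j h2 h2; omega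

lemma hat_pt (l : ι ⊕ ι → Ω) (t : Ω) : hat (pt l t) = hat (pos l) + t • vec (dir l) := by
  rw [pt, hat_add, vec_smul]

lemma aeval_pt_quad (hA : A.IsSymm) (l : ι ⊕ ι → Ω) (t : Ω) : aeval (pt l t) (quad A) =
    bl A (hat (pos l)) (hat (pos l)) + 2 * t * bl A (hat (pos l)) (vec (dir l)) +
      t ^ 2 * bl A (vec (dir l)) (vec (dir l)) := by
  rw [aeval_quad, ← bl, hat_pt, bl_add, bl_smul, bl_symm hA, bl_symm hA (_ + _), bl_add, bl_add,
    bl_smul, bl_smul, bl_symm hA (vec _) (hat _)]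
  ring

lemma grad_quad_dot (hA : A.IsSymm) (q u : ι → Ω) :
    grad (quad A) q ⬝ᵥ u = 2 * bl A (vec u) (hat q) := by
  rw [grad_quad hA, bl, vec_dot, smul_dotProduct, dotProduct_comm, smul_eq_mul]

omit [DecidableEq ι] in
lemma grad_dsc (hA : A.IsSymm) (l : ι ⊕ ι → Ω) (j : ι ⊕ ι) : ∃ α β : ι → Ω, grad (dsc A) l j =
    2 * bl A (vec α) (bl A (hat (pos l)) (vec (dir l)) • vec (dir l) +
      (-bl A (vec (dir l)) (vec (dir l))) • hat (pos l)) +
    2 * bl A (vec β) (bl A (hat (pos l)) (vec (dir l)) • hat (pos l) +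
      (-bl A (hat (pos l)) (hat (pos l))) • vec (dir l)) := by
  refine ⟨fun i => ev l (pderiv j (X (.inl i) : MvPolynomial _ C)),
    fun i => ev l (pderiv j (X (.inr i) : MvPolynomial _ C)), ?_⟩
  have h1 : ev (C := C) l ∘ pderiv j ∘ (hat fun i => X (.inl i)) =
      vec fun i => ev l (pderiv j (X (.inl i) : MvPolynomial _ C)) := by
    ext (_ | i) <;> simp [hat, vec]
  have h2 : ev (C := C) l ∘ pderiv j ∘ (vec fun i => X (.inr i)) =
      vec fun i => ev l (pderiv j (X (.inr i) : MvPolynomial _ C)) := by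
    ext (_ | i) <;> simp [vec]
  change ev l (pderiv j (dsc A)) = _
  simp only [dsc, sq, map_sub, Derivation.leibniz, smul_eq_mul, der_bl, map_add, map_mul, map_bl,
    ev_hat, ev_vec, h1, h2, bl_add, bl_smul]
  generalize (vec fun i => ev l (pderiv j (X (.inl i) : MvPolynomial _ C))) = α
  generalize (vec fun i => ev l (pderiv j (X (.inr i) : MvPolynomial _ C))) = β
  rw [bl_symm hA (hat _) α, bl_symm hA (hat _) β, bl_symm hA (vec _) β]
  ring

/-- Smooth points of the discriminant are tangent edges. -/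
lemma tl_of_dsc (hA : A.IsSymm) (hm : m.f = quad A) {u : ι → Ω} (hl : bl A (vec u) (vec u) ≠ 0)
    (he : Cur C e) (h0 : ev e (dsc A) = 0) (h1 : grad (dsc A) e ≠ 0) : Tl m e := by
  have r := cur_iff_rk.1 he
  rw [Fintype.card_sum, Nat.cast_add] at r
  obtain ⟨j, hj⟩ := Function.ne_iff.1 h1
  obtain ⟨α, β, h2⟩ := grad_dsc hA e j
  rw [h2] at hj
  rw [ev_dsc] at h0
  have h3 := aeval_pt_quad hA e
  have h4 : ∀ v t, grad (quad A) (pt e t) ⬝ᵥ v =
      2 * (bl A (vec v) (hat (pos e)) + t * bl A (vec v) (vec (dir e))) := fun v t => by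
    rw [grad_quad_dot hA, hat_pt, bl_add, bl_smul]
  have h5 := h4 (dir e)
  rw [bl_symm hA (vec _) (hat _)] at h5
  simp only [bl_add, bl_smul] at hj
  obtain ⟨a, ha⟩ : ∃ a, a = bl A (vec (dir e)) (vec (dir e)) := ⟨_, rfl⟩
  obtain ⟨b, hb⟩ : ∃ b, b = bl A (hat (pos e)) (vec (dir e)) := ⟨_, rfl⟩
  obtain ⟨c, hc⟩ : ∃ c, c = bl A (hat (pos e)) (hat (pos e)) := ⟨_, rfl⟩
  rw [← ha, ← hb, ← hc] at hj h0 h3
  rw [← ha, ← hb] at h5
  by_cases a0 : a = 0
  · obtain rfl : b = 0 := by simpa [a0] using h0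
    exfalso
    let N := sp (A.map (algebraMap C Ω) *ᵥ vec (dir e))
    have N0 : N ≠ 0 := fun e' => hj (by simp [a0, bl, vec_dot, show sp _ = 0 from e'])
    have mem : ∀ o, (A.map (algebraMap C Ω) *ᵥ vec (dir e)) o ∈ cl C (range (dir e)) := fun o =>
      sum_mem fun o' _ => mul_mem (algebraMap_mem _ _) (by
        cases o'
        exacts [zero_mem _, subset_cl _ ⟨_, rfl⟩])
    have r1 := rk_lin (N := N) (u := pos e) (fun i => mem _) (neg_mem (mem none)) N0 (by
      rw [bl, hat_dot] at hb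
      rw [dotProduct_comm]
      linear_combination -hb)
    have e1 : ∀ w : ι → Ω, ev w (bl A (vec X) (vec X)) = bl A (vec w) (vec w) := fun w => by
      rw [map_bl, show ev (C := C) w ∘ vec X = vec w by ext (_ | i) <;> simp [ev, vec]]
    have r2 := rk_lt (l := dir e) (F := bl A (vec X) (vec X))
      (fun e' => hl (by rw [← e1, e', map_zero])) (by rw [e1, ← ha, a0])
    rw [union_comm, ← range_edge, r] at r1
    have r3 := add_le_add_left r1 1
    rw [add_right_comm (rk C _)] at r3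
    replace r3 := r3.trans (add_le_add_left r2 _)
    norm_cast at r3
    omega
  · have z : aeval (pt e (-b / a)) m.f = 0 := by
      rw [hm, h3]; field_simp; linear_combination -h0
    have g : grad m.f (pt e (-b / a)) ⬝ᵥ dir e = 0 := by
      rw [hm, h5]; field_simp; ring
    have N0 : grad m.f (pt e (-b / a)) ≠ 0 := fun e' => hj (by
      have p := h4 α (-b / a)
      have p' := h4 β (-b / a)
      rw [← hm, e', zero_dotProduct] at p p'
      field_simp at p p'
      refine mul_left_cancel₀ a0 ?_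
      simp only [Pi.zero_apply]
      linear_combination a * p - b * p' + 2 * bl A (vec β) (vec (dir e)) * h0)
    refine ⟨he, _, on_of_rk z ?_, g⟩
    have r1 := add_le_add_left (rk_tan N0 g) 1
    rw [r, add_right_comm] at r1
    exact (ENat.add_le_add_iff_right (ENat.natCast_ne_top _)).1 r1

/-- The discriminant of a quadric vanishes only on its tangent edges. -/
theorem tq [CharZero Ω] [IsAlgClosed C] [IsAlgClosed Ω] (hf : Sf C Ω (ι ⊕ ι)) (hl : Gen C l)
    {D : MvPolynomial (ι ⊕ ι) C} (hD : Dsc Ω m D) (hm : Qd m) (he : Cur C e) (h0 : ev e D = 0) :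
    Tl m e := by
  have : CharZero C := (algebraMap C Ω).charZero
  obtain ⟨A, hA, h1⟩ := ex_quad hm.le
  obtain ⟨P, hP, hr⟩ := H42.place hf hl he hD.1 h0
  have h2 := aeval_pt_quad hA l
  have a0 : bl A (vec (dir l)) (vec (dir l)) ≠ 0 := fun e' => by
    have h3 : sec m.f l = Polynomial.C (2 * bl A (hat (pos l)) (vec (dir l))) * Polynomial.X +
        Polynomial.C (bl A (hat (pos l)) (hat (pos l))) :=
      Polynomial.funext fun t => by rw [eval_sec, h1, h2, e']; simp; ring
    have h4 := natDegree_sec m.prime.ne_zero (gen_dir hl)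
    rw [h3, hm] at h4
    exact absurd (h4 ▸ Polynomial.natDegree_linear_le) (by norm_num)
  have key : ∀ W G : MvPolynomial (ι ⊕ ι) C, W ≠ 0 → dsc A = W ^ 2 * G → ev e G = 0 := by
    intro W G W0 hG
    by_contra G0
    have w0 : ev l W ≠ 0 := fun e' => W0 (hl _ e')
    have fx : ∀ F, P.σ (ev l F) = ev l F := fun F => by rw [← ev_mp, mp_eq hP.fx]
    have fa := fx (bl A (vec fun i => X (.inr i)) (vec fun i => X (.inr i)))
    have fb := fx (bl A (hat fun i => X (.inl i)) (vec fun i => X (.inr i)))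
    simp only [map_bl, ev_hat, ev_vec] at fa fb
    obtain ⟨r, h3⟩ := IsAlgClosed.exists_pow_nat_eq (ev l D) two_pos
    have h4 := hD.2 l hl _ hP.fx r h3
    rw [H96A.grp.one _ _ fun y hy => ?_, hr r h3] at h4
    · have : r = 0 := by simpa [neg_eq_iff_add_eq_zero] using h4
      exact hD.1.ne_zero (hl _ (by rw [← h3, this]; simp))
    have h5 := H96A.Lift.unit (H42.sp_ev P hP.sp G) G0 (fx G)
      (r := (bl A (vec (dir l)) (vec (dir l)) * y + bl A (hat (pos l)) (vec (dir l))) / ev l W) (by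
        have p := congrArg (ev l) hG
        have p' := (mem_pts.1 hy).2
        rw [h1, h2] at p'
        rw [ev_dsc, map_mul, map_pow] at p
        field_simp
        linear_combination p + bl A (vec (dir l)) (vec (dir l)) * p')
    rw [map_div₀, fx, map_add, map_mul, fa, fb, div_left_inj' w0, add_left_inj] at h5
    exact mul_left_cancel₀ a0 h5
  have d0 := key 1 (dsc A) one_ne_zero (by simp)
  refine tl_of_dsc hA h1 a0 he d0 fun g0 => ?_
  obtain ⟨π, hπ, hk⟩ := he
  obtain ⟨G, hG⟩ := (hk _).1 d0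
  obtain ⟨j, hj⟩ := Function.ne_iff.1 (grad_ne hπ hk)
  have h3 : ev e G = 0 := by
    have : ev e (pderiv j (π * G)) = 0 := hG ▸ congrFun g0 j
    rw [Derivation.leibniz, map_add, smul_eq_mul, smul_eq_mul, map_mul, map_mul,
      (hk π).2 dvd_rfl, zero_mul, zero_add] at this
    exact (mul_eq_zero.1 this).resolve_right hj
  obtain ⟨G, rfl⟩ := (hk _).1 h3
  obtain ⟨G, rfl⟩ := (hk _).1 (key π G hπ.ne_zero (by rw [hG]; ring))
  have G0 : G ≠ 0 := by
    rintro rfl
    obtain ⟨y, hy⟩ := Finset.card_pos.1 ((card_pts m hl).symm ▸ (two_pos.trans_le m.deg))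
    have p := gen_nu hl (mem_pts.1 hy).2
    have p' := (mem_pts.1 hy).2
    have p'' := congrArg (ev l) hG
    rw [h1, grad_quad_dot hA, hat_pt, bl_add, bl_smul, bl_symm hA] at p
    rw [h1, h2] at p'
    rw [ev_dsc, mul_zero, mul_zero, mul_zero, map_zero] at p''
    refine right_ne_zero_of_mul p (pow_eq_zero_iff two_ne_zero |>.1 ?_)
    linear_combination p'' + bl A (vec (dir l)) (vec (dir l)) * p'
  have h4 := degreeOf_dsc A j
  have p0 := hπ.ne_zero
  rw [hG, degreeOf_mul_eq p0 (by simp [p0, G0]), degreeOf_mul_eq p0 (by simp [p0, G0]),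
    degreeOf_mul_eq p0 G0] at h4
  have h5 : j ∉ π.vars := fun h => mem_vars_iff_degreeOf_ne_zero.1 h (by omega)
  exact hj (by rw [grad, pderiv_eq_zero_of_notMem_vars h5, map_zero]; rfl)

end Pool.Agent.MP_249f74_an.H32
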